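import Pool.Agent.Lib.MP_572a3e_an.Final

namespace Pool.Agent.Results.MP_572a3e_an.LpInvariance

open MeasureTheory Filter Topology Pool.Agent.Lib.MP_572a3e_an

theorem result {S X Y : Type} [Fintype S] [DecidableEq S] [Nonempty S]
    [MeasurableSpace X] [StandardBorelSpace X] [MeasurableSpace Y] [StandardBorelSpace Y]
    (μ : Measure X) [IsProbabilityMeasure μ] (ν : Measure Y) [IsProbabilityMeasure ν]
    [MulAction (FreeGroup S) X] [MulAction (FreeGroup S) Y]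
    (hT : ∀ g : FreeGroup S, MeasurePreserving (fun x : X => g • x) μ μ)
    (hU : ∀ g : FreeGroup S, MeasurePreserving (fun y : Y => g • y) ν ν)
    (hTf : ∀ g : FreeGroup S, g ≠ 1 → μ {x | g • x = x} = 0)
    (hUf : ∀ g : FreeGroup S, g ≠ 1 → ν {y | g • y = y} = 0)
    (Φ : X → Y) (Ψ : Y → X) (hΦ : MeasurePreserving Φ μ ν) (hΨ : MeasurePreserving Ψ ν μ)
    (hΨΦ : ∀ᵐ x ∂μ, Ψ (Φ x) = x) (hΦΨ : ∀ᵐ y ∂ν, Φ (Ψ y) = y)
    (α : FreeGroup S → X → FreeGroup S) (β : FreeGroup S → Y → FreeGroup S)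
    (hα : ∀ g, ∀ᵐ x ∂μ, α g x • Φ x = Φ (g • x))
    (hβ : ∀ g, ∀ᵐ y ∂ν, β g y • Ψ y = Ψ (g • y))
    (p : ENNReal) (hp : 1 ≤ p)
    (iα : ∀ g, MemLp (fun x => ((α g x).norm : ℝ)) p μ)
    (iβ : ∀ g, MemLp (fun y => ((β g y).norm : ℝ)) p ν)
    {A B : Type} [Countable A] [Countable B] (φ : X → A) (ψ : Y → B)
    (hφ : FinGen (FreeGroup S) μ φ) (hψ : FinGen (FreeGroup S) ν ψ) :
    ∃ L : EReal,
      Tendsto (fun ρ : ℕ => (F S μ (obs {g : FreeGroup S | g.norm ≤ ρ} φ) : EReal)) atTop (𝓝 L) ∧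
      Tendsto (fun ρ : ℕ => (F S ν (obs {g : FreeGroup S | g.norm ≤ ρ} ψ) : EReal)) atTop
        (𝓝 L) := by
  refine final hT hU (ae_all_iff.2 fun g => ?_) (ae_all_iff.2 fun g => ?_) hΦ hΨ hΨΦ hΦΨ hα hβ hp
    iα iβ hφ hψ
  · by_cases h : g = 1
    · exact ae_of_all _ fun _ _ => h
    · filter_upwards [measure_eq_zero_iff_ae_notMem.1 (hTf g h)] with x hx h'
      exact absurd h' hx
  · by_cases h : g = 1
    · exact ae_of_all _ fun _ _ => h
    · filter_upwards [measure_eq_zero_iff_ae_notMem.1 (hUf g h)] with x hx h'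
      exact absurd h' hx

end Pool.Agent.Results.MP_572a3e_an.LpInvariance
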